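import Pool.Agent.N869.GK.L.Stm

/-!
# GK/VAL: the exact value of the sum for the stable maximal unlinked sets
-/

set_option autoImplicit false
set_option linter.unusedVariables false

open scoped Classical

namespace Pool.Agent.N833.GK

open Finset
open Pool.Agent.N869.GK

/-! ### Linear combinations with coefficients depending on a point -/

section th

variable {d : ℕ} {ι : Type} {M : Type} [AddCommGroup M] [Module (ZMod 2) M]

/-- `x ↦ ∑ k, u k x • y k` -/
def th (u : Fin d → ι → ZMod 2) (y : Fin d → M) (x : ι) : M := ∑ k, u k x • y k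

theorem th_dual [Fintype ι] {u f : Fin d → ι → ZMod 2}
    (hf : ∀ k l, ∑ x, f k x * u l x = if k = l then 1 else 0) (y : Fin d → M) (k : Fin d) :
    ∑ x, f k x • th u y x = y k := by
  have : ∀ x, f k x • th u y x = ∑ l, (f k x * u l x) • y l := by
    intro x
    rw [th, smul_sum]
    exact sum_congr rfl fun l _ => by rw [mul_smul]
  rw [sum_congr rfl fun x _ => this x, sum_comm]
  have : ∀ l, ∑ x, (f k x * u l x) • y l = if k = l then y l else 0 := by
    intro l
    rw [← sum_smul, hf]
    split_ifs <;> simp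
  rw [sum_congr rfl fun l _ => this l]
  simp

theorem th_inj [Fintype ι] {u f : Fin d → ι → ZMod 2}
    (hf : ∀ k l, ∑ x, f k x * u l x = if k = l then 1 else 0) :
    Function.Injective (fun y : Fin d → M => th u y) := by
  intro y y' h
  funext k
  rw [← th_dual hf y k, ← th_dual hf y' k]
  exact sum_congr rfl fun x _ => congrArg (fun z => f k x • z) (congrFun h x)

theorem th_add (u : Fin d → ι → ZMod 2) (y y' : Fin d → M) (x : ι) :
    th u (y + y') x = th u y x + th u y' x := by
  simp [th, sum_add_distrib]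

end th

/-! ### The Weil pairing -/

theorem om_comm (v w : V) : om v w = om w v := by
  unfold om
  ring

theorem om_add_left (v v' w : V) : om (v + v') w = om v w + om v' w := by
  simp only [om, Pi.add_apply]
  ring

theorem om_add_right (v w w' : V) : om v (w + w') = om v w + om v w' := by
  simp only [om, Pi.add_apply]
  ring

theorem om_smul_left (c : ZMod 2) (v w : V) : om (c • v) w = c * om v w := by
  simp only [om, Pi.smul_apply, smul_eq_mul]
  ring

theorem om_smul_right (c : ZMod 2) (v w : V) : om v (c • w) = c * om v w := by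
  simp only [om, Pi.smul_apply, smul_eq_mul]
  ring

theorem om_zero_left (w : V) : om 0 w = 0 := by
  simp [om]

theorem om_zero_right (w : V) : om w 0 = 0 := by
  simp [om]

theorem om_sum_left {κ : Type} (s : Finset κ) (v : κ → V) (w : V) :
    om (∑ k ∈ s, v k) w = ∑ k ∈ s, om (v k) w := by
  simp only [om, Finset.sum_apply, sum_mul, sum_add_distrib]

theorem om_sum_right {κ : Type} (s : Finset κ) (v : κ → V) (w : V) :
    om w (∑ k ∈ s, v k) = ∑ k ∈ s, om w (v k) := by
  simp only [om, Finset.sum_apply, mul_sum, sum_add_distrib]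

theorem z2 (a : ZMod 2) : a = 0 ∨ a = 1 := by
  revert a
  decide

theorem sn_zero : sn 0 = 1 := if_pos rfl

theorem sn_one : sn 1 = -1 := if_neg (by decide)

theorem sn_add (a b : ZMod 2) : sn (a + b) = sn a * sn b := by
  rcases z2 a with rfl | rfl <;> rcases z2 b with rfl | rfl
  · rw [add_zero, sn_zero, mul_one]
  · rw [zero_add, sn_zero, one_mul]
  · rw [add_zero, sn_zero, mul_one]
  · rw [show (1 : ZMod 2) + 1 = 0 from rfl, sn_zero, sn_one]
    norm_num

theorem sn_sum {κ : Type} (s : Finset κ) (a : κ → ZMod 2) : sn (∑ k ∈ s, a k) = ∏ k ∈ s, sn (a k) := by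
  induction s using Finset.induction_on with
  | empty => rw [sum_empty, prod_empty, sn_zero]
  | insert k s hk ih => rw [sum_insert hk, prod_insert hk, sn_add, ih]

/-! ### Linearity of the equations -/

section lin

variable {r : ℕ} {R : Type} (D : Par r) (lab : R → Gr r) (N : R → R → ZMod 2) (T : Finset R)

theorem dot_add (x x' y : Gr r) : dot (x + x') y = dot x y + dot x' y := by
  simp only [dot, Pi.add_apply, add_mul, sum_add_distrib]

theorem Dm_add (π : Gr r) (v v' : V) : Dm D π (v + v') = Dm D π v + Dm D π v' := by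
  funext c
  fin_cases c
  · simp [Dm]
    ring
  · simp [Dm]
    ring

/-- the equation at `i`, as a linear map -/
noncomputable def rowL (i : R) : ((Fin 2 → Gr r) × (R → V)) →ₗ[ZMod 2] V :=
  AddMonoidHom.toZModLinearMap 2
    { toFun := fun q => row D lab N T q.1 q.2 i
      map_zero' := by
        funext c
        have h : Dm D (lab i) (0 : V) = 0 := by
          have := Dm_add D (lab i) 0 0
          rw [add_zero] at this
          exact left_eq_add.1 this
        have h' : dot (0 : Gr r) (lab i) = 0 := by simp [dot]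
        simp [row, h, h']
      map_add' := by
        intro q q'
        funext c
        simp only [row, Prod.fst_add, Prod.snd_add, Pi.add_apply, dot_add, Dm_add]
        have : ∀ j ∈ T, N i j * (q.2 i c + q'.2 i c + (q.2 j c + q'.2 j c)) =
            N i j * (q.2 i c + q.2 j c) + N i j * (q'.2 i c + q'.2 j c) := fun j _ => by ring
        rw [sum_congr rfl this, sum_add_distrib]
        ring }

theorem rowL_apply (i : R) (q : (Fin 2 → Gr r) × (R → V)) :
    rowL D lab N T i q = row D lab N T q.1 q.2 i := rfl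

/-- the classes at the bad places, as a linear map -/
noncomputable def XlL : ((Fin 2 → Gr r) × (R → V)) →ₗ[ZMod 2] Hr r :=
  AddMonoidHom.toZModLinearMap 2
    { toFun := fun q => Xl lab T q.1 q.2
      map_zero' := by
        simp only [Xl, Prod.fst_zero, Prod.snd_zero, Pi.zero_apply, zero_smul, sum_const_zero]
        rfl
      map_add' := by
        intro q q'
        simp only [Xl, Prod.fst_add, Prod.snd_add, Pi.add_apply, add_smul, sum_add_distrib]
        rfl }

theorem XlL_apply (q : (Fin 2 → Gr r) × (R → V)) :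
    XlL lab T q = Xl lab T q.1 q.2 := rfl

end lin

/-! ### The structure of the stable sets -/

section str

variable {ι : Type} [Fintype ι]

/-- the element of the group of differences with the coordinates `y` and `p` -/
def emb {d : ℕ} (u t : Fin d → ι → ZMod 2) (y : Fin d → V) (p : ι → V) : Dc ι :=
  fun x => (th u y x, th t y x + p x)

/-- the group of the differences -/
def LS (Z : Finset (Dc ι)) (hadd : ∀ ζ₁ ∈ Z, ∀ ζ₂ ∈ Z, ∀ ζ₃ ∈ Z, ζ₁ + ζ₂ + ζ₃ ∈ Z) (z : Dc ι)
    (hz : z ∈ Z) : Submodule (ZMod 2) (Dc ι) :=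
  AddSubgroup.toZModSubmodule 2
    { carrier := {η | z + η ∈ Z}
      zero_mem' := by
        show z + 0 ∈ Z
        rw [add_zero]
        exact hz
      add_mem' := by
        intro a b ha hb
        have h := hadd z hz _ ha _ hb
        have e : z + (z + a) + (z + b) = z + (a + b) := by
          have := ZModModule.add_self z
          calc z + (z + a) + (z + b) = (z + z) + (z + (a + b)) := by abel
            _ = z + (a + b) := by rw [this, zero_add]
        rw [e] at h
        exact h
      neg_mem' := by
        intro a ha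
        have : -a = a := ZModModule.neg_eq_self a
        show z + -a ∈ Z
        rw [this]
        exact ha }

/-- the structure of a stable maximal unlinked set -/
structure Str (Z : Finset (Dc ι)) {d : ℕ} (u t f : Fin d → ι → ZMod 2) (z : Dc ι)
    (P : Finset (ι → V)) : Prop where
  dual : ∀ k l, ∑ x, f k x * u l x = if k = l then 1 else 0
  symm : ∀ k l, ∑ x, t k x * u l x = ∑ x, t l x * u k x
  perp : ∀ v : ι → V, (∀ p ∈ P, ∑ x, om (p x) (v x) = 0) ↔ ∃ y : Fin d → V, v = th u y
  add : ∀ p ∈ P, ∀ p' ∈ P, p + p' ∈ P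
  mem : ∀ ζ, ζ ∈ Z ↔ ∃ y p, p ∈ P ∧ ζ = z + emb u t y p

theorem exists_str (hU : S_UNL) (Z : Finset (Dc ι)) (hZ : MS univ Z) (hS : Stb Z) :
    ∃ (d : ℕ) (u t f : Fin d → ι → ZMod 2) (z : Dc ι) (P : Finset (ι → V)), Str Z u t f z P := by
  obtain ⟨hadd, -, hdual⟩ := (hU ι univ).2 Z hZ
  have hne : Z.Nonempty := by
    rw [← Finset.card_pos, hZ.2.1]
    positivity
  obtain ⟨z, hz⟩ := hne
  set L := LS Z hadd z hz with hL
  have hzz : ∀ a : Dc ι, z + (z + a) = a := fun a => by
    rw [← add_assoc, ZModModule.add_self, zero_add]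
  have hLm : ∀ η, η ∈ L ↔ z + η ∈ Z := fun η => Iff.rfl
  have hq : ∀ η ∈ L, ∑ x, om (η x).2 (η x).1 = 0 := by
    intro η hη
    have := hZ.2.2 z hz _ ((hLm η).1 hη)
    rw [Qs] at this
    rw [← this]
    refine sum_congr rfl fun x _ => ?_
    have h1 : (z x).2 + ((z + η) x).2 = (η x).2 := congrArg Prod.snd (congrFun (hzz η) x)
    have h2 : (z x).1 + ((z + η) x).1 = (η x).1 := congrArg Prod.fst (congrFun (hzz η) x)
    rw [h1, h2]
  have hpair : ∀ η ∈ L, ∀ η' ∈ L, ∑ x, (om (η x).2 (η' x).1 + om (η' x).2 (η x).1) = 0 := by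
    intro η hη η' hη'
    have h1 := hq _ (L.add_mem hη hη')
    have h2 := hq _ hη
    have h3 := hq _ hη'
    have : ∀ x, om ((η + η') x).2 ((η + η') x).1 = (om (η x).2 (η' x).1 + om (η' x).2 (η x).1) +
        (om (η x).2 (η x).1 + om (η' x).2 (η' x).1) := by
      intro x
      rw [Pi.add_apply, Prod.fst_add, Prod.snd_add, om_add_left, om_add_right, om_add_right]
      ring
    rw [sum_congr rfl fun x _ => this x, sum_add_distrib (f := fun x => om (η x).2 (η' x).1 +
      om (η' x).2 (η x).1), sum_add_distrib (f := fun x => om (η x).2 (η x).1), h2, h3, add_zero,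
      add_zero] at h1
    exact h1
  have hdu : ∀ η : Dc ι, (∀ η' ∈ L, ∑ x, (om (η' x).2 (η x).1 + om (η x).2 (η' x).1) = 0) →
      η ∈ L := by
    intro η h
    rw [hLm]
    have hη : η ∈ Sp (univ : Finset ι) := by simp [Sp]
    have h4 : ∀ ζ₁ ∈ Z, ∀ ζ₂ ∈ Z, ∑ x, (om ((ζ₁ x).2 + (ζ₂ x).2) (η x).1 +
        om (η x).2 ((ζ₁ x).1 + (ζ₂ x).1)) = 0 := by
      intro ζ₁ h1 ζ₂ h2
      have h3 : ζ₁ + ζ₂ ∈ L := by
        rw [hLm, ← add_assoc]
        exact hadd z hz _ h1 _ h2
      have h5 := h _ h3
      simp only [Pi.add_apply, Prod.fst_add, Prod.snd_add] at h5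
      exact h5
    exact hdual η hη h4 z hz
  have hact : ∀ (M : Matrix (Fin 2) (Fin 2) (ZMod 2)), ∀ η ∈ L, act M η ∈ L := by
    intro M η hη
    rw [hLm]
    have := hS M z hz _ ((hLm η).1 hη)
    rwa [hzz] at this
  have hcol : ∀ η ∈ L, ∀ (j : Fin 2) (c : V), (fun x => ((η x).1 j • c, (η x).2 j • c)) ∈ L := by
    intro η hη j c
    have := hact (Matrix.of fun a b => if b = j then c a else 0) η hη
    convert this using 1
    funext x
    have e : ∀ v : V, (Matrix.of fun a b => if b = j then c a else 0).mulVec v = v j • c := by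
      intro v
      funext a
      simp only [Matrix.mulVec, dotProduct, Matrix.of_apply, ite_mul, zero_mul,
        Pi.smul_apply, smul_eq_mul, Finset.sum_ite_eq', Finset.mem_univ, if_true]
      ring
    rw [act, e, e]
  -- the space U'
  let U' : Submodule (ZMod 2) (ι → ZMod 2) := AddSubgroup.toZModSubmodule 2
    { carrier := {u | ∃ t : ι → ZMod 2, ∀ c : V, (fun x => (u x • c, t x • c)) ∈ L}
      zero_mem' := ⟨0, fun c => by
        have : (fun x => ((0 : ι → ZMod 2) x • c, (0 : ι → ZMod 2) x • c)) = (0 : Dc ι) := by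
          funext x
          simp
        rw [this]
        exact L.zero_mem⟩
      add_mem' := by
        rintro a b ⟨t, ht⟩ ⟨t', ht'⟩
        refine ⟨t + t', fun c => ?_⟩
        have := L.add_mem (ht c) (ht' c)
        convert this using 1
        funext x
        simp [add_smul]
      neg_mem' := by
        intro a ha
        have : -a = a := ZModModule.neg_eq_self a
        rw [this]
        exact ha }
  have hU' : ∀ u : ι → ZMod 2, u ∈ U' ↔ ∃ t : ι → ZMod 2, ∀ c : V,
      (fun x => (u x • c, t x • c)) ∈ L := fun u => Iff.rfl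
  let b := Module.finBasis (ZMod 2) U'
  let d := Module.finrank (ZMod 2) U'
  let u : Fin d → ι → ZMod 2 := fun k => (b k : ι → ZMod 2)
  have hut : ∀ k, ∃ t : ι → ZMod 2, ∀ c : V, (fun x => (u k x • c, t x • c)) ∈ L :=
    fun k => (hU' _).1 (b k).2
  choose t ht using hut
  have hemb0 : ∀ y : Fin d → V, emb u t y 0 ∈ L := by
    intro y
    have : emb u t y 0 = ∑ k, (fun x => (u k x • y k, t k x • y k)) := by
      funext x
      rw [Finset.sum_apply]
      apply Prod.ext
      · rw [Prod.fst_sum]
        rfl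
      · rw [Prod.snd_sum]
        simp [emb, th]
    rw [this]
    exact L.sum_mem fun k _ => ht k (y k)
  have hQ : ∀ η ∈ L, ∃ y : Fin d → V, (fun x => (η x).1) = th u y := by
    intro η hη
    have h1 : ∀ j : Fin 2, (fun x => (η x).1 j) ∈ U' := by
      intro j
      rw [hU']
      refine ⟨fun x => (η x).2 j, fun c => hcol η hη j c⟩
    refine ⟨fun k j => b.repr ⟨_, h1 j⟩ k, ?_⟩
    funext x j
    have h2 := congrArg (fun w : U' => (w : ι → ZMod 2) x) (b.sum_repr ⟨_, h1 j⟩)
    simp only at h2
    rw [← h2]
    simp only [th, Finset.sum_apply, Pi.smul_apply, smul_eq_mul, Submodule.coe_sum,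
      Submodule.coe_smul]
    exact sum_congr rfl fun k _ => mul_comm _ _
  let P : Finset (ι → V) := univ.filter fun p => (fun x => ((0 : V), p x)) ∈ L
  have hP : ∀ p : ι → V, p ∈ P ↔ (fun x => ((0 : V), p x)) ∈ L := fun p => by simp [P]
  -- dual functions
  let jj : (Fin d → ZMod 2) →ₗ[ZMod 2] (ι → ZMod 2) := U'.subtype ∘ₗ b.equivFun.symm.toLinearMap
  have hjj : LinearMap.ker jj = ⊥ := by
    rw [LinearMap.ker_eq_bot]
    exact U'.injective_subtype.comp b.equivFun.symm.injective
  obtain ⟨g, hg⟩ := LinearMap.exists_leftInverse_of_injective jj hjj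
  have hju : ∀ l, jj (Pi.single l 1) = u l := by
    intro l
    show ((b.equivFun.symm (Pi.single l 1) : U') : ι → ZMod 2) = (b l : ι → ZMod 2)
    congr 1
    rw [Module.Basis.equivFun_symm_apply]
    rw [Finset.sum_eq_single l]
    · simp
    · intro k _ hk
      rw [Pi.single_eq_of_ne hk, zero_smul]
    · simp
  let f : Fin d → ι → ZMod 2 := fun k x => g (Pi.single x 1) k
  refine ⟨d, u, t, f, z, P, ?_, ?_, ?_, ?_, ?_⟩
  · intro k l
    have h1 : ∑ x, f k x * u l x = g (u l) k := by
      have h2 : u l = ∑ x, u l x • (Pi.single x 1 : ι → ZMod 2) := by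
        funext x
        simp [Finset.sum_apply, Pi.single_apply]
      conv_rhs => rw [h2, map_sum]
      rw [Finset.sum_apply]
      refine sum_congr rfl fun x _ => ?_
      rw [map_smul, Pi.smul_apply, smul_eq_mul, mul_comm]
    rw [h1, ← hju, ← LinearMap.comp_apply, hg, LinearMap.id_apply, Pi.single_apply]
  · intro k l
    have h1 := hpair _ (ht k ![1, 0]) _ (ht l ![0, 1])
    have h2 : ∀ x, (om (t k x • ![1, 0]) (u l x • ![0, 1]) + om (t l x • ![0, 1]) (u k x • ![1, 0])) =
        t k x * u l x + t l x * u k x := by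
      intro x
      simp [om]
    rw [sum_congr rfl fun x _ => h2 x, sum_add_distrib] at h1
    have h3 : ∀ a b : ZMod 2, a + b = 0 → a = b := by decide
    exact h3 _ _ h1
  · intro v
    constructor
    · intro h
      by_contra hv
      let QS : Submodule (ZMod 2) (ι → V) := AddSubgroup.toZModSubmodule 2
        { carrier := {v | ∃ y : Fin d → V, v = th u y}
          zero_mem' := ⟨0, by funext x; simp [th]⟩
          add_mem' := by
            rintro _ _ ⟨y, rfl⟩ ⟨y', rfl⟩
            exact ⟨y + y', by funext x; rw [th_add]; rfl⟩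
          neg_mem' := by
            rintro a ha
            have : -a = a := ZModModule.neg_eq_self a
            rw [this]
            exact ha }
      have hvQ : v ∉ QS := hv
      obtain ⟨φ, hφv, hφQ⟩ := Submodule.exists_le_ker_of_notMem hvQ
      let w : ι → V := fun x => ![φ (Pi.single x ![0, 1]), φ (Pi.single x ![1, 0])]
      have hw : ∀ v : ι → V, ∑ x, om (w x) (v x) = φ v := by
        intro v
        have e : v = ∑ x, (v x 0 • (Pi.single x ![1, 0] : ι → V) +
            v x 1 • (Pi.single x ![0, 1] : ι → V)) := by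
          funext x
          rw [Finset.sum_apply, Finset.sum_eq_single x]
          · funext j
            fin_cases j <;> simp
          · intro y _ hy
            simp [Pi.single_eq_of_ne (Ne.symm hy)]
          · simp
        conv_rhs => rw [e, map_sum]
        refine sum_congr rfl fun x _ => ?_
        rw [map_add, map_smul, map_smul, smul_eq_mul, smul_eq_mul]
        simp only [om, w, Matrix.cons_val_zero, Matrix.cons_val_one]
        ring
      have hwP : w ∈ P := by
        rw [hP]
        apply hdu
        intro η' hη'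
        have h1 : ∀ x, om (η' x).2 (0 : V) + om (w x) (η' x).1 = om (w x) (η' x).1 := fun x => by
          rw [om_zero_right, zero_add]
        rw [sum_congr rfl fun x _ => h1 x, hw fun x => (η' x).1]
        exact hφQ (hQ η' hη')
      exact hφv ((hw v).symm.trans (h w hwP))
    · rintro ⟨y, rfl⟩ p hp
      have := hpair _ ((hP p).1 hp) _ (hemb0 y)
      rw [← this]
      refine sum_congr rfl fun x _ => ?_
      rw [om_zero_right, add_zero]
      rfl
  · intro p hp p' hp'
    rw [hP] at hp hp' ⊢
    have := L.add_mem hp hp'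
    convert this using 1
    funext x
    simp
  · intro ζ
    constructor
    · intro hζ
      have hη : z + ζ ∈ L := by
        rw [hLm, hzz]
        exact hζ
      obtain ⟨y, hy⟩ := hQ _ hη
      have h1 : z + ζ + emb u t y 0 ∈ L := L.add_mem hη (hemb0 y)
      refine ⟨y, fun x => ((z + ζ + emb u t y 0) x).2, ?_, ?_⟩
      · rw [hP]
        convert h1 using 1
        funext x
        apply Prod.ext
        · show (0 : V) = ((z + ζ) x).1 + th u y x
          rw [← congrFun hy x, ZModModule.add_self]
        · rfl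
      · have h2 : emb u t y (fun x => ((z + ζ + emb u t y 0) x).2) = z + ζ := by
          funext x
          apply Prod.ext
          · exact (congrFun hy x).symm
          · show th t y x + (((z + ζ) x).2 + (th t y x + 0)) = ((z + ζ) x).2
            rw [add_zero, add_comm, add_assoc, ZModModule.add_self, add_zero]
        rw [h2, hzz]
    · rintro ⟨y, p, hp, rfl⟩
      rw [← hLm]
      have := L.add_mem (hemb0 y) ((hP p).1 hp)
      convert this using 1
      funext x
      apply Prod.ext
      · show th u y x = th u y x + 0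
        rw [add_zero]
      · show th t y x + p x = th t y x + 0 + p x
        rw [add_zero]

end str

/-! ### The sum over the group `P` -/

section sumP

variable {ι : Type} [Fintype ι]

theorem sum_P (P : Finset (ι → V)) (hP : ∀ p ∈ P, ∀ p' ∈ P, p + p' ∈ P) (ρ : ι → V) :
    ∑ p ∈ P, sn (∑ x, om (p x) (ρ x)) =
      if (∀ p ∈ P, ∑ x, om (p x) (ρ x) = 0) then (P.card : ℝ) else 0 := by
  split_ifs with h
  · rw [sum_congr rfl fun p hp => by rw [h p hp, sn_zero], sum_const, nsmul_eq_mul, mul_one]
  · push Not at h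
    obtain ⟨p₀, hp₀, h0⟩ := h
    have h1 : ∑ x, om (p₀ x) (ρ x) = 1 := (z2 _).resolve_left h0
    have h2 : ∑ p ∈ P, sn (∑ x, om (p x) (ρ x)) = ∑ p ∈ P, sn (∑ x, om ((p + p₀) x) (ρ x)) := by
      refine Finset.sum_nbij' (fun p => p + p₀) (fun p => p + p₀) ?_ ?_ ?_ ?_ ?_
      · intro p hp
        exact hP p hp _ hp₀
      · intro p hp
        exact hP p hp _ hp₀
      · intro p _
        show p + p₀ + p₀ = p
        rw [add_assoc, ZModModule.add_self, add_zero]
      · intro p _
        show p + p₀ + p₀ = p
        rw [add_assoc, ZModModule.add_self, add_zero]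
      · intro p _
        show _ = sn (∑ x, om ((p + p₀ + p₀) x) (ρ x))
        rw [add_assoc, ZModModule.add_self, add_zero]
    have h3 : ∀ p : ι → V, sn (∑ x, om ((p + p₀) x) (ρ x)) = - sn (∑ x, om (p x) (ρ x)) := by
      intro p
      have : ∑ x, om ((p + p₀) x) (ρ x) = ∑ x, om (p x) (ρ x) + ∑ x, om (p₀ x) (ρ x) := by
        rw [← sum_add_distrib]
        exact sum_congr rfl fun x _ => by rw [Pi.add_apply, om_add_left]
      rw [this, h1, sn_add, sn_one]
      ring
    rw [sum_congr rfl fun p _ => h3 p, sum_neg_distrib] at h2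
    linarith

end sumP

section count

variable {ι : Type} [Fintype ι] {Z : Finset (Dc ι)} {d : ℕ} {u t f : Fin d → ι → ZMod 2}
  {z : Dc ι} {P : Finset (ι → V)}

theorem emb_inj (h : Str Z u t f z P) {y y' : Fin d → V} {p p' : ι → V}
    (e : emb u t y p = emb u t y' p') : y = y' ∧ p = p' := by
  have h1 : y = y' := by
    apply th_inj (M := V) h.dual
    funext x
    exact congrArg Prod.fst (congrFun e x)
  subst h1
  refine ⟨rfl, ?_⟩
  funext x
  have := congrArg Prod.snd (congrFun e x)
  exact add_left_cancel this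

theorem card_V : Fintype.card V = 4 := by
  simp [ZMod.card]

theorem card_P (h : Str Z u t f z P) (hZ : MS univ Z) : P.card * 4 ^ d = 4 ^ Fintype.card ι := by
  have h1 : Z = (univ ×ˢ P).image (fun q : (Fin d → V) × (ι → V) => z + emb u t q.1 q.2) := by
    ext ζ
    rw [h.mem, Finset.mem_image]
    constructor
    · rintro ⟨y, p, hp, rfl⟩
      exact ⟨(y, p), Finset.mem_product.2 ⟨Finset.mem_univ _, hp⟩, rfl⟩
    · rintro ⟨⟨y, p⟩, hq, rfl⟩
      exact ⟨y, p, (Finset.mem_product.1 hq).2, rfl⟩
  have h2 := hZ.2.1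
  rw [h1, Finset.card_image_of_injective, Finset.card_product, Finset.card_univ,
    Fintype.card_fun, card_V, Fintype.card_fin, Finset.card_univ] at h2
  · rw [← h2, mul_comm]
  · rintro ⟨y, p⟩ ⟨y', p'⟩ e
    obtain ⟨h3, h4⟩ := emb_inj h (add_left_cancel e)
    simp only at h3 h4
    rw [h3, h4]

end count

section main

variable {r : ℕ} {R : Type} [Fintype R] (D : Par r) (lab : R → Gr r) (N : R → R → ZMod 2)

theorem row_th {ι : Type} {d : ℕ} (u : Fin d → ι → ZMod 2) (σ : Fin d → Fin 2 → Gr r)
    (y : R → Fin d → V) (i : R) (x : ι) :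
    row D lab N univ (th u σ x) (fun j => th u (y j) x) i =
      th u (fun k => row D lab N univ (σ k) (fun j => y j k) i) x := by
  have h1 : ((th u σ x, fun j => th u (y j) x) : (Fin 2 → Gr r) × (R → V)) =
      ∑ k, u k x • ((σ k, fun j => y j k) : (Fin 2 → Gr r) × (R → V)) := by
    apply Prod.ext
    · rw [Prod.fst_sum]
      rfl
    · rw [Prod.snd_sum]
      funext j
      rw [Finset.sum_apply]
      rfl
  have h2 := rowL_apply D lab N univ i (th u σ x, fun j => th u (y j) x)
  rw [← h2, h1, map_sum]
  refine sum_congr rfl fun k _ => ?_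
  rw [map_smul]
  rfl

theorem Xl_th {ι : Type} {d : ℕ} (u : Fin d → ι → ZMod 2) (σ : Fin d → Fin 2 → Gr r)
    (y : R → Fin d → V) (x : ι) :
    Xl lab univ (th u σ x) (fun j => th u (y j) x) =
      th u (fun k => Xl lab univ (σ k) (fun j => y j k)) x := by
  have h1 : ((th u σ x, fun j => th u (y j) x) : (Fin 2 → Gr r) × (R → V)) =
      ∑ k, u k x • ((σ k, fun j => y j k) : (Fin 2 → Gr r) × (R → V)) := by
    apply Prod.ext
    · rw [Prod.fst_sum]
      rfl
    · rw [Prod.snd_sum]
      funext j
      rw [Finset.sum_apply]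
      rfl
  have h2 := XlL_apply lab univ (th u σ x, fun j => th u (y j) x)
  rw [← h2, h1, map_sum]
  refine sum_congr rfl fun k _ => ?_
  rw [map_smul]
  rfl

/-- membership in `W` is preserved by linear combinations -/
theorem W_th (W : AddSubgroup (Hr r)) {κ : Type} (s : Finset κ) (a : κ → ZMod 2) (X : κ → Hr r)
    (h : ∀ k, X k ∈ W) : ∑ k ∈ s, a k • X k ∈ W := by
  refine W.sum_mem fun k _ => ?_
  rcases z2 (a k) with e | e
  · rw [e, zero_smul]
    exact W.zero_mem
  · rw [e, one_smul]
    exact h k

theorem Xl_iff {ι : Type} [Fintype ι] {d : ℕ} {u f : Fin d → ι → ZMod 2}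
    (hf : ∀ k l, ∑ x, f k x * u l x = if k = l then 1 else 0) (σ : Fin d → Fin 2 → Gr r)
    (y : R → Fin d → V) :
    (∀ x, Xl lab univ (th u σ x) (fun j => th u (y j) x) ∈ D.W) ↔
      ∀ k, Xl lab univ (σ k) (fun j => y j k) ∈ D.W := by
  constructor
  · intro h k
    have h1 := th_dual hf (fun k => Xl lab univ (σ k) (fun j => y j k)) k
    rw [← h1]
    refine W_th D.W univ _ _ fun x => ?_
    rw [← Xl_th]
    exact h x
  · intro h x
    rw [Xl_th]
    exact W_th D.W univ _ _ h

theorem image_iff {ι : Type} [Fintype ι] {d : ℕ} (u : Fin d → ι → ZMod 2)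
    (hlab : ∀ π : Gr r, ∃ i, lab i = π) (s : ι → Fin 2 → Gr r) (y : R → Fin d → V) :
    (∀ i, ∃ w : Fin d → V, (fun x => row D lab N univ (s x) (fun j => th u (y j) x) i) = th u w) ↔
      ∃ σ : Fin d → Fin 2 → Gr r, s = th u σ := by
  constructor
  · intro h
    have h1 : ∀ j : Fin r, ∃ w : Fin d → V, ∀ x c, s x c j = th u w x c := by
      intro j
      obtain ⟨i, hi⟩ := hlab (Pi.single j 1)
      obtain ⟨w, hw⟩ := h i
      refine ⟨w + fun k => row D lab N univ 0 (fun j => y j k) i, fun x c => ?_⟩
      rw [th_add, ← congrFun hw x]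
      have h2 : th u (fun k => row D lab N univ 0 (fun j => y j k) i) x =
          row D lab N univ 0 (fun j => th u (y j) x) i := by
        have := row_th D lab N u (fun _ => 0) y i x
        rw [← this]
        congr 1
        simp [th]
      rw [h2]
      have h3 : row D lab N univ (s x) (fun j => th u (y j) x) i +
          row D lab N univ 0 (fun j => th u (y j) x) i = row D lab N univ (s x) 0 i := by
        have := (rowL D lab N univ i).map_add (s x, fun j => th u (y j) x)
          (0, fun j => th u (y j) x)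
        rw [rowL_apply, rowL_apply, rowL_apply] at this
        rw [← this]
        have e : ((s x, fun j => th u (y j) x) : (Fin 2 → Gr r) × (R → V)) +
            (0, fun j => th u (y j) x) = (s x, 0) := by
          apply Prod.ext
          · show s x + 0 = s x
            rw [add_zero]
          · exact ZModModule.add_self (fun j => th u (y j) x)
        rw [e]
      have h5 := congrFun h3 c
      rw [Pi.add_apply] at h5
      rw [Pi.add_apply, h5]
      have h4 : ∀ π : Gr r, Dm D π (0 : V) = 0 := by
        intro π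
        have := Dm_add D π 0 0
        rw [add_zero] at this
        exact left_eq_add.1 this
      simp only [row, Pi.zero_apply, h4, add_zero, mul_zero, sum_const_zero, hi, dot]
      rw [Finset.sum_eq_single j]
      · simp
      · intro k _ hk
        rw [Pi.single_eq_of_ne hk, mul_zero]
      · simp
    choose w hw using h1
    refine ⟨fun k c j => w j k c, ?_⟩
    funext x c j
    rw [hw]
    simp [th, Finset.sum_apply]
  · rintro ⟨σ, rfl⟩ i
    refine ⟨fun k => row D lab N univ (σ k) (fun j => y j k) i, ?_⟩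
    funext x
    exact row_th D lab N u σ y i x

/-- a sum of a symmetric function against a symmetric function that is zero on the diagonal -/
theorem sym_sum {d : ℕ} (γ E : Fin d → Fin d → ZMod 2) (hγ : ∀ k l, γ k l = γ l k)
    (hE : ∀ k l, E k l = E l k) (h0 : ∀ k, E k k = 0) : ∑ k, ∑ l, γ k l * E k l = 0 := by
  rw [← Finset.sum_product']
  refine Finset.sum_involution (fun q _ => (q.2, q.1)) ?_ ?_ ?_ ?_
  · rintro ⟨k, l⟩ _
    show γ k l * E k l + γ l k * E l k = 0
    rw [hγ l k, hE l k]
    exact ZModModule.add_self _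
  · rintro ⟨k, l⟩ _ h e
    apply h
    have : k = l := (congrArg Prod.snd e)
    subst this
    show γ k k * E k k = 0
    rw [h0, mul_zero]
  · intro q _
    exact Finset.mem_product.2 ⟨Finset.mem_univ _, Finset.mem_univ _⟩
  · intro q _
    rfl

theorem main_sum {ι : Type} [Fintype ι] {d : ℕ} {u t f : Fin d → ι → ZMod 2} {z : Dc ι}
    {P : Finset (ι → V)} {Z : Finset (Dc ι)} (h : Str Z u t f z P)
    (hlab : ∀ π : Gr r, ∃ i, lab i = π) (τ : ι → Fin 2 → Gr r)
    (hτ : ∀ x, Xl lab univ (τ x) (fun _ : R => (z x).1) ∈ D.W ∧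
      ∀ i, row D lab N univ (τ x) (fun _ => (z x).1) i = 0)
    (hA : ∀ (s : Fin 2 → Gr r) (v : R → V), Xl lab univ s v ∈ D.W →
      (∀ c : V, ∑ i, om c (row D lab N univ s v i) = 0) ∧
      ∑ i, om (v i) (row D lab N univ s v i) = 0)
    (hB : ∀ (s s' : Fin 2 → Gr r) (v v' : R → V), Xl lab univ s v ∈ D.W →
      Xl lab univ s' v' ∈ D.W →
      ∑ i, om (v' i) (row D lab N univ s v i) = ∑ i, om (v i) (row D lab N univ s' v' i)) :
    One D lab N Z = ∑ q : (Fin d → Fin 2 → Gr r) × (R → Fin d → V),
      if (∀ k, Xl lab univ (q.1 k) (fun i => q.2 i k) ∈ D.W) then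
        (P.card : ℝ) ^ Fintype.card R else 0 := by
  -- parametrise the elements of `Z`
  have h1 : ∀ s : ι → Fin 2 → Gr r,
      ∑ ζ ∈ (Fintype.piFinset fun _ : R => Z).filter (fun ζ : R → Dc ι =>
        XW D lab (fun _ => univ) s ζ), sn (Ex D lab N (fun _ => univ) s ζ) =
      ∑ y : R → Fin d → V, ∑ p ∈ Fintype.piFinset (fun _ : R => P),
        if XW D lab (fun _ => univ) s (fun i => z + emb u t (y i) (p i)) then
          sn (Ex D lab N (fun _ => univ) s (fun i => z + emb u t (y i) (p i))) else 0 := by
    intro s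
    rw [Finset.sum_filter, ← Finset.sum_product']
    symm
    refine Finset.sum_nbij (fun q : (R → Fin d → V) × (R → ι → V) =>
      fun i => z + emb u t (q.1 i) (q.2 i)) ?_ ?_ ?_ ?_
    · intro q hq
      rw [Fintype.mem_piFinset]
      intro i
      rw [h.mem]
      exact ⟨_, _, Fintype.mem_piFinset.1 (Finset.mem_product.1 hq).2 i, rfl⟩
    · intro q _ q' _ e
      have h2 : ∀ i, q.1 i = q'.1 i ∧ q.2 i = q'.2 i := fun i =>
        emb_inj h (add_left_cancel (congrFun e i))
      exact Prod.ext (funext fun i => (h2 i).1) (funext fun i => (h2 i).2)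
    · intro ζ hζ
      have h2 : ∀ i, ∃ y p, p ∈ P ∧ ζ i = z + emb u t y p := fun i =>
        (h.mem _).1 (Fintype.mem_piFinset.1 (Finset.mem_coe.1 hζ) i)
      choose y p hp he using h2
      refine ⟨(y, p), ?_, ?_⟩
      · rw [Finset.mem_coe, Finset.mem_product]
        exact ⟨Finset.mem_univ _, Fintype.mem_piFinset.2 hp⟩
      · funext i
        exact (he i).symm
    · intro q _
      rfl
  -- translate by the torsion
  have hadd : ∀ (s : ι → Fin 2 → Gr r) (y : R → Fin d → V) (x : ι),
      Xl lab univ (τ x + s x) (fun i => (z x).1 + th u (y i) x) =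
        Xl lab univ (τ x) (fun _ => (z x).1) + Xl lab univ (s x) (fun i => th u (y i) x) :=
    fun s y x => (XlL lab univ).map_add (τ x, fun _ => (z x).1) (s x, fun i => th u (y i) x)
  have hadd' : ∀ (s : ι → Fin 2 → Gr r) (y : R → Fin d → V) (x : ι) (i : R),
      row D lab N univ (τ x + s x) (fun i => (z x).1 + th u (y i) x) i =
        row D lab N univ (s x) (fun i => th u (y i) x) i := by
    intro s y x i
    have := (rowL D lab N univ i).map_add (τ x, fun _ => (z x).1) (s x, fun i => th u (y i) x)
    rw [rowL_apply, rowL_apply, rowL_apply, (hτ x).2 i, zero_add] at this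
    exact this
  have h2 : ∀ (s : ι → Fin 2 → Gr r) (y : R → Fin d → V) (p : R → ι → V),
      XW D lab (fun _ => univ) (τ + s) (fun i => z + emb u t (y i) (p i)) ↔
        ∀ x, Xl lab univ (s x) (fun i => th u (y i) x) ∈ D.W := by
    intro s y p
    refine forall_congr' fun x => ?_
    have : Xl lab univ ((τ + s) x) (fun i => ((z + emb u t (y i) (p i)) x).1) =
        Xl lab univ (τ x) (fun _ => (z x).1) + Xl lab univ (s x) (fun i => th u (y i) x) :=
      hadd s y x
    rw [this]
    exact AddSubgroup.add_mem_cancel_left D.W (hτ x).1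
  have h3 : ∀ (s : ι → Fin 2 → Gr r) (y : R → Fin d → V) (p : R → ι → V),
      Ex D lab N (fun _ => univ) (τ + s) (fun i => z + emb u t (y i) (p i)) =
        ∑ x, ∑ i, om ((z x).2 + th t (y i) x) (row D lab N univ (s x) (fun i => th u (y i) x) i) +
        ∑ i, ∑ x, om (p i x) (row D lab N univ (s x) (fun i => th u (y i) x) i) := by
    intro s y p
    rw [sum_comm (s := (univ : Finset R)) (t := (univ : Finset ι)), ← sum_add_distrib]
    refine sum_congr rfl fun x _ => ?_
    rw [← sum_add_distrib]
    refine sum_congr rfl fun i _ => ?_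
    have e1 : row D lab N univ ((τ + s) x) (fun j => ((z + emb u t (y j) (p j)) x).1) i =
        row D lab N univ (s x) (fun i => th u (y i) x) i := hadd' s y x i
    have e2 : ((z + emb u t (y i) (p i)) x).2 = (z x).2 + th t (y i) x + p i x :=
      (add_assoc _ _ _).symm
    rw [e1, e2, om_add_left]
  -- the sum over `p`
  have h4 : ∀ (s : ι → Fin 2 → Gr r) (y : R → Fin d → V),
      (∑ p ∈ Fintype.piFinset (fun _ : R => P),
        if XW D lab (fun _ => univ) (τ + s) (fun i => z + emb u t (y i) (p i)) then
          sn (Ex D lab N (fun _ => univ) (τ + s) (fun i => z + emb u t (y i) (p i))) else 0) =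
      if (∃ σ : Fin d → Fin 2 → Gr r, s = th u σ) then
        (if (∀ x, Xl lab univ (s x) (fun i => th u (y i) x) ∈ D.W) then
          sn (∑ x, ∑ i, om ((z x).2 + th t (y i) x)
            (row D lab N univ (s x) (fun i => th u (y i) x) i)) *
              (P.card : ℝ) ^ Fintype.card R else 0) else 0 := by
    intro s y
    by_cases hX : ∀ x, Xl lab univ (s x) (fun i => th u (y i) x) ∈ D.W
    · have h10 : ∀ p : R → ι → V,
          (if XW D lab (fun _ => univ) (τ + s) (fun i => z + emb u t (y i) (p i)) then
            sn (Ex D lab N (fun _ => univ) (τ + s) (fun i => z + emb u t (y i) (p i))) else 0) =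
          sn (∑ x, ∑ i, om ((z x).2 + th t (y i) x)
            (row D lab N univ (s x) (fun i => th u (y i) x) i)) *
          ∏ i, sn (∑ x, om (p i x) (row D lab N univ (s x) (fun i => th u (y i) x) i)) := by
        intro p
        rw [if_pos ((h2 s y p).2 hX), h3, sn_add]
        congr 1
        exact sn_sum _ _
      rw [sum_congr rfl fun p _ => h10 p,
        ← mul_sum, ← Finset.prod_univ_sum (fun _ : R => P) (fun i p =>
          sn (∑ x, om (p x) (row D lab N univ (s x) (fun i => th u (y i) x) i))), if_pos hX]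
      have h5 : ∀ i : R, ∑ p ∈ P, sn (∑ x, om (p x)
          (row D lab N univ (s x) (fun i => th u (y i) x) i)) =
          if (∃ w : Fin d → V, (fun x => row D lab N univ (s x) (fun j => th u (y j) x) i) =
            th u w) then (P.card : ℝ) else 0 := by
        intro i
        rw [sum_P P h.add fun x => row D lab N univ (s x) (fun i => th u (y i) x) i]
        congr 1
        exact propext (h.perp fun x => row D lab N univ (s x) (fun i => th u (y i) x) i)
      rw [prod_congr rfl fun i _ => h5 i]
      split_ifs with hs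
      · rw [prod_congr rfl fun i _ => if_pos ((image_iff D lab N u hlab s y).2 hs i), prod_const,
          Finset.card_univ]
      · have : ¬ ∀ i, ∃ w : Fin d → V,
            (fun x => row D lab N univ (s x) (fun j => th u (y j) x) i) = th u w :=
          fun hh => hs ((image_iff D lab N u hlab s y).1 hh)
        push Not at this
        obtain ⟨i, hi⟩ := this
        rw [Finset.prod_eq_zero (Finset.mem_univ i), mul_zero]
        rw [if_neg]
        push Not
        exact hi
    · rw [sum_congr rfl fun p _ => if_neg fun hh => hX ((h2 s y p).1 hh), sum_const_zero,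
        if_neg hX, ite_self]
  -- the sign
  have h6 : ∀ (σ : Fin d → Fin 2 → Gr r) (y : R → Fin d → V),
      (∀ k, Xl lab univ (σ k) (fun j => y j k) ∈ D.W) →
      ∑ x, ∑ i, om ((z x).2 + th t (y i) x)
            (row D lab N univ (th u σ x) (fun i => th u (y i) x) i) = 0 := by
    intro σ y hW
    have hWx := (Xl_iff D lab h.dual σ y).2 hW
    have e1 : ∀ x, ∑ i, om ((z x).2 + th t (y i) x)
        (row D lab N univ (th u σ x) (fun i => th u (y i) x) i) =
        ∑ k, ∑ l, (t k x * u l x) * ∑ i, om (y i k) (row D lab N univ (σ l) (fun j => y j l) i) := by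
      intro x
      rw [sum_congr rfl fun i _ => om_add_left _ _ _, sum_add_distrib, (hA _ _ (hWx x)).1, zero_add]
      have e2 : ∀ i, om (th t (y i) x) (row D lab N univ (th u σ x) (fun i => th u (y i) x) i) =
          ∑ k, ∑ l, (t k x * u l x) * om (y i k) (row D lab N univ (σ l) (fun j => y j l) i) := by
        intro i
        rw [row_th, th, om_sum_left]
        refine sum_congr rfl fun k _ => ?_
        rw [th, om_sum_right]
        refine sum_congr rfl fun l _ => ?_
        rw [om_smul_left, om_smul_right, mul_assoc]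
      rw [sum_congr rfl fun i _ => e2 i, sum_comm]
      refine sum_congr rfl fun k _ => ?_
      rw [sum_comm]
      refine sum_congr rfl fun l _ => ?_
      rw [mul_sum]
    rw [sum_congr rfl fun x _ => e1 x, sum_comm]
    have e3 : ∀ k, ∑ x, ∑ l, (t k x * u l x) *
        ∑ i, om (y i k) (row D lab N univ (σ l) (fun j => y j l) i) =
        ∑ l, (∑ x, t k x * u l x) * ∑ i, om (y i k) (row D lab N univ (σ l) (fun j => y j l) i) := by
      intro k
      rw [sum_comm]
      refine sum_congr rfl fun l _ => ?_
      rw [sum_mul]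
    rw [sum_congr rfl fun k _ => e3 k]
    exact sym_sum _ _ h.symm (fun k l => hB _ _ _ _ (hW l) (hW k)) fun k => (hA _ _ (hW k)).2
  -- assembly
  have h7 : One D lab N Z = ∑ s : ι → Fin 2 → Gr r, ∑ y : R → Fin d → V,
      if (∃ σ : Fin d → Fin 2 → Gr r, s = th u σ) then
        (if (∀ x, Xl lab univ (s x) (fun i => th u (y i) x) ∈ D.W) then
          sn (∑ x, ∑ i, om ((z x).2 + th t (y i) x)
            (row D lab N univ (s x) (fun i => th u (y i) x) i)) *
              (P.card : ℝ) ^ Fintype.card R else 0) else 0 := by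
    rw [Pool.Agent.N869.GK.One, sum_congr rfl fun s _ => h1 s, ← Equiv.sum_comp (Equiv.addLeft τ)]
    refine sum_congr rfl fun s _ => ?_
    refine sum_congr rfl fun y _ => ?_
    exact h4 s y
  rw [h7, Fintype.sum_prod_type]
  have h8 : (univ.filter fun s : ι → Fin 2 → Gr r => ∃ σ : Fin d → Fin 2 → Gr r, s = th u σ) =
      univ.image (fun σ : Fin d → Fin 2 → Gr r => th u σ) := by
    ext s
    rw [Finset.mem_filter, Finset.mem_image]
    constructor
    · rintro ⟨_, σ, rfl⟩
      exact ⟨σ, Finset.mem_univ _, rfl⟩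
    · rintro ⟨σ, _, rfl⟩
      exact ⟨Finset.mem_univ _, σ, rfl⟩
  have h9 : ∀ s : ι → Fin 2 → Gr r, (∑ y : R → Fin d → V,
      if (∃ σ : Fin d → Fin 2 → Gr r, s = th u σ) then
        (if (∀ x, Xl lab univ (s x) (fun i => th u (y i) x) ∈ D.W) then
          sn (∑ x, ∑ i, om ((z x).2 + th t (y i) x)
            (row D lab N univ (s x) (fun i => th u (y i) x) i)) *
              (P.card : ℝ) ^ Fintype.card R else 0) else 0) =
      if (∃ σ : Fin d → Fin 2 → Gr r, s = th u σ) then ∑ y : R → Fin d → V,
        (if (∀ x, Xl lab univ (s x) (fun i => th u (y i) x) ∈ D.W) then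
          sn (∑ x, ∑ i, om ((z x).2 + th t (y i) x)
            (row D lab N univ (s x) (fun i => th u (y i) x) i)) *
              (P.card : ℝ) ^ Fintype.card R else 0) else 0 := by
    intro s
    split_ifs with hs
    · rfl
    · exact sum_const_zero
  rw [sum_congr rfl fun s _ => h9 s, ← Finset.sum_filter, h8,
    Finset.sum_image fun σ _ σ' _ e => th_inj (M := Fin 2 → Gr r) h.dual e]
  refine sum_congr rfl fun σ _ => ?_
  refine sum_congr rfl fun y _ => ?_
  by_cases hW : ∀ k, Xl lab univ (σ k) (fun j => y j k) ∈ D.W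
  · rw [if_pos hW, if_pos ((Xl_iff D lab h.dual σ y).2 hW), h6 σ y hW, sn_zero, one_mul]
  · rw [if_neg hW, if_neg fun hh => hW ((Xl_iff D lab h.dual σ y).1 hh)]

end main

/-- the number of the tuples -/
theorem card_tuples {r : ℕ} {R : Type} [Fintype R] (D : Par r) (lab : R → Gr r) (d : ℕ)
    (hK : Nat.card {x : (Fin 2 → Gr r) × (R → V) // Xl lab univ x.1 x.2 ∈ D.W} =
      4 ^ Fintype.card R) :
    (univ.filter fun q : (Fin d → Fin 2 → Gr r) × (R → Fin d → V) =>
      ∀ k, Xl lab univ (q.1 k) (fun i => q.2 i k) ∈ D.W).card = (4 ^ Fintype.card R) ^ d := by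
  rw [← hK, ← Fintype.card_subtype, ← Nat.card_eq_fintype_card]
  have e : {q : (Fin d → Fin 2 → Gr r) × (R → Fin d → V) //
      ∀ k, Xl lab univ (q.1 k) (fun i => q.2 i k) ∈ D.W} ≃
      (Fin d → {x : (Fin 2 → Gr r) × (R → V) // Xl lab univ x.1 x.2 ∈ D.W}) :=
    { toFun := fun q k => ⟨(q.1.1 k, fun i => q.1.2 i k), q.2 k⟩
      invFun := fun x => ⟨(fun k => (x k).1.1, fun i k => (x k).1.2 i), fun k => (x k).2⟩
      left_inv := fun q => rfl
      right_inv := fun x => rfl }
  rw [Nat.card_congr e, Nat.card_fun, Nat.card_fin]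

theorem t_VAL : S_VAL := by
  intro hU hAUTO hTOR hKC r D hD R ι _ _ lab N hH Z hZ hS
  obtain ⟨d, u, t, f, z, P, h⟩ := exists_str hU Z hZ hS
  have hlab : ∀ π : Gr r, ∃ i, lab i = π := fun π => by
    obtain ⟨i, -, hi⟩ := hH.all π
    exact ⟨i, hi⟩
  obtain ⟨hA, hB⟩ := hAUTO r D hD R lab N univ hH.par hH.recip
  have hT := (hTOR r D hD R lab N univ).1 hH.par
  rw [main_sum D lab N h hlab
    (fun x => ![(z x).1 0 • (D.ll + D.em) + (z x).1 1 • D.aa, (z x).1 0 • D.bb + (z x).1 1 • D.ll])
    (fun x => ?_) hA hB]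
  · rw [← Finset.sum_filter, sum_const, card_tuples D lab d (hKC r D hD R lab hlab), nsmul_eq_mul]
    have h1 := card_P h hZ
    have h2 : (P.card : ℝ) * 4 ^ d = 4 ^ Fintype.card ι := by exact_mod_cast h1
    rw [pow_mul, ← h2, mul_pow]
    push_cast
    rw [← pow_mul, ← pow_mul, mul_comm (Fintype.card R) d, mul_comm]
  · have h3 := hT (z x).1
    simp only [Sol, Finset.mem_univ, if_true, not_true_eq_false, false_imp_iff, implies_true,
      true_and, forall_true_left] at h3
    exact h3

end Pool.Agent.N833.GK
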